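-- The asymptotic number of matroids representable over a finite field.
import Pool.Agent.H699.RM.Limits

set_option autoImplicit false

namespace Pool.Agent.Results.MP_e84969_co.Asymptotic

open Pool.Agent.H699.RM

/-- For every prime `p`, every `k ≥ 1` and every field `F` with `q = p ^ k` elements, the number
`numRep F n` of isomorphism classes of `F`-representable matroids on `n` elements is asymptotic to
`(1 / (n! k (q - 1) ^ (n - 1))) * ∑_j [n choose j]_q`. -/
theorem result (p k : ℕ) (hp : p.Prime) (F : Type) [Field F] [Fintype F]
    (hF : Fintype.card F = p ^ k) :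
    Filter.Tendsto (fun n : ℕ => (numRep F n : ℝ) / comparison F k n) Filter.atTop (nhds 1) := by
  have : Fact p.Prime := ⟨hp⟩
  exact tendsto_ratio k (card_aut p k hF)

end Pool.Agent.Results.MP_e84969_co.Asymptotic
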